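import Pool.Agent.H21.WP.Freq
import Pool.Agent.H21.PW.Words

/-!
# [H72 PD OCC] MP_8923e7_nt, THEOREM W+: windows of bounded length, fixed tuples

`occ_of_hits`: if the number of the strings with the classes `w` in windows of a fixed length is as large as in `CoreA` for
arbitrarily large `X`, then the word `w` occurs with a fixed tuple of gaps.  `occ_str_two`: of two coprime moduli one is such
that all the words `a^(k+1) b^(k+1)` occur.
-/

namespace Pool.Agent.H72.PD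

open Finset Pool.Agent.H96.WP Pool.Agent.H21.WP Pool.Agent.H21.PW

theorem grow (c : ℝ) (hc : 0 < c) (H K : ℕ) (hH : 0 < H) (B : ℝ) :
    ∀ᶠ X : ℕ in Filter.atTop, B < c * ((H : ℝ) / Real.log X) ^ K * (X / Real.log X) := by
  have h1 : Filter.Tendsto (fun x : ℝ => x / Real.log x ^ (K + 1)) Filter.atTop Filter.atTop := by
    have h2 : (fun x : ℝ => Real.log x ^ (K + 1)) =o[Filter.atTop] fun x : ℝ => x :=
      isLittleO_log_rpow_rpow_atTop (s := 1) ((K : ℝ) + 1) one_pos |>.congr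
        (fun x => by
          rw [show ((K : ℝ) + 1) = ((K + 1 : ℕ) : ℝ) by push_cast; ring, Real.rpow_natCast])
        (fun x => Real.rpow_one x)
    have h3 := h2.tendsto_div_nhds_zero
    have h4 : Filter.Tendsto (fun x : ℝ => (Real.log x ^ (K + 1) / x)⁻¹) Filter.atTop Filter.atTop := by
      refine Filter.Tendsto.comp tendsto_inv_nhdsGT_zero ?_
      rw [tendsto_nhdsWithin_iff]
      refine ⟨h3, ?_⟩
      filter_upwards [Filter.eventually_gt_atTop (1 : ℝ)] with x hx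
      exact Set.mem_Ioi.2 (div_pos (pow_pos (Real.log_pos hx) _) (by linarith))
    refine h4.congr fun x => ?_
    rw [inv_div]
  have h5 : 0 < c * (H : ℝ) ^ K := by positivity
  have h6 := (h1.comp tendsto_natCast_atTop_atTop).eventually_gt_atTop (B / (c * (H : ℝ) ^ K))
  filter_upwards [h6, Filter.eventually_gt_atTop 1] with X h7 h8
  rw [div_lt_iff₀ h5] at h7
  refine h7.trans_le (le_of_eq ?_)
  show (X : ℝ) / Real.log X ^ (K + 1) * (c * (H : ℝ) ^ K) = _
  have h9 : (1 : ℝ) < X := by exact_mod_cast h8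
  have h10 : Real.log X ≠ 0 := (Real.log_pos h9).ne'
  rw [div_pow, pow_succ]
  field_simp

/-- from the counts in windows of fixed length to a fixed tuple -/
theorem occ_of_hits {L s Q k K : ℕ} {w : Fin (k + 1) → (ZMod Q)ˣ} {c : ℝ} (hc : 0 < c) {H : ℕ}
    (hH : 0 < H) (h : ∃ᶠ X : ℕ in Filter.atTop, c * ((H : ℝ) / Real.log X) ^ K * (X / Real.log X) ≤
      ((Hit L s Q w X H).ncard : ℝ)) : Occ k L s Q w := by
  classical
  obtain ⟨S, hS⟩ : ∃ S : Set ℕ, S = {n : ℕ | ∀ i : Fin (k + 1),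
      Nat.nth Nat.Prime (n + i) ≤ Nat.nth Nat.Prime n + H ∧
      Nat.nth Nat.Prime (n + i) ≡ s [MOD L] ∧ ((Nat.nth Nat.Prime (n + i) : ℕ) : ZMod Q) = w i} :=
    ⟨_, rfl⟩
  have hinf : S.Infinite := by
    intro hfin
    obtain ⟨X, h1, h2⟩ := (h.and_eventually (grow c hc H K hH (S.ncard : ℝ))).exists
    have h3 : (Hit L s Q w X H).ncard ≤ S.ncard := by
      refine Set.ncard_le_ncard ?_ hfin
      intro n hn
      rw [hS]
      intro i
      exact ⟨(hn i).2.1, (hn i).2.2⟩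
    have h4 : ((Hit L s Q w X H).ncard : ℝ) ≤ S.ncard := by exact_mod_cast h3
    linarith
  -- the tuples
  let F : ℕ → (Fin (k + 1) → Fin (H + 1)) := fun n j =>
    Fin.ofNat (H + 1) (Nat.nth Nat.Prime (n + j) - Nat.nth Nat.Prime n)
  obtain ⟨f, hf⟩ : ∃ f : Fin (k + 1) → Fin (H + 1), (S ∩ {n | F n = f}).Infinite := by
    by_contra hcon
    push Not at hcon
    apply hinf
    have h1 : S ⊆ ⋃ f, (S ∩ {n | F n = f}) := fun n hn => Set.mem_iUnion.2 ⟨F n, hn, rfl⟩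
    exact (Set.finite_iUnion hcon).subset h1
  have hmono := Nat.nth_strictMono Nat.infinite_setOfPred_prime
  have hval : ∀ n ∈ S ∩ {n | F n = f}, ∀ j : Fin (k + 1),
      Nat.nth Nat.Prime n + (f j : ℕ) = Nat.nth Nat.Prime (n + j) := by
    rintro n ⟨hn, hn2⟩ j
    rw [hS] at hn
    have h1 := (hn j).1
    have h2 : Nat.nth Nat.Prime n ≤ Nat.nth Nat.Prime (n + j) := hmono.monotone (by omega)
    have h3 : (f j : ℕ) = (Nat.nth Nat.Prime (n + j) - Nat.nth Nat.Prime n) % (H + 1) := by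
      rw [← show F n = f from hn2]
      rfl
    rw [Nat.mod_eq_of_lt (by omega)] at h3
    omega
  refine ⟨fun j => (f j : ℕ), ?_, ?_⟩
  · obtain ⟨n, hn⟩ := hf.nonempty
    have h1 := hval n hn 0
    have h2 : Nat.nth Nat.Prime (n + ((0 : Fin (k + 1)) : ℕ)) = Nat.nth Nat.Prime n := by
      rw [Fin.val_zero, add_zero]
    rw [h2] at h1
    show (f 0 : ℕ) = 0
    omega
  · refine ((hf.image hmono.injective.injOn).mono ?_)
    rintro _ ⟨n, hn, rfl⟩
    refine ⟨⟨?_, ?_, ?_⟩, ?_⟩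
    · intro i j hij
      have h1 := hval n hn i
      have h2 := hval n hn j
      have h3 : Nat.nth Nat.Prime (n + i) < Nat.nth Nat.Prime (n + j) := hmono (by
        have := Fin.lt_def.1 hij
        omega)
      show (f i : ℕ) < (f j : ℕ)
      omega
    · intro j
      rw [hval n hn j]
      exact Nat.prime_nth_prime _
    · intro q hq h1 h2
      rw [hval n hn] at h1 h2
      obtain ⟨m, hm⟩ : ∃ m, Nat.nth Nat.Prime m = q := ⟨_, Nat.nth_count hq⟩
      rw [← hm] at h1 h2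
      have h3 := hmono.le_iff_le.1 h1
      have h4 := hmono.le_iff_le.1 h2
      rw [Fin.val_zero, add_zero] at h3
      rw [Fin.val_last] at h4
      refine ⟨⟨m - n, by omega⟩, ?_⟩
      rw [hval n hn, ← hm]
      congr 1
      show m = n + (m - n)
      omega
    · intro j
      rw [hval n hn j]
      have hn1 := hn.1
      rw [hS] at hn1
      exact ⟨(hn1 j).2.1, (hn1 j).2.2⟩

/-- of two coprime moduli one has all the words `a^(k+1) b^(k+1)`, with fixed tuples -/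
theorem occ_str_two (hC : ∀ (e : ℝ) (m : ℕ), 0 < e → 1 ≤ m → ∃ s K : ℕ, 1 ≤ s ∧ CoreA e m s K)
    (L s₀ : ℕ) (Q : Fin 2 → ℕ) (hL : 0 < L) (hs : Nat.Coprime s₀ L)
    (hQ : ∀ i, 0 < Q i) (hQL : ∀ i, Nat.Coprime (Q i) L)
    (hQQ : ∀ i j, i ≠ j → Nat.Coprime (Q i) (Q j)) :
    ∃ i, ∀ (k : ℕ) (a b : (ZMod (Q i))ˣ), Occ (2 * k + 1) L s₀ (Q i) (strW a b k) := by
  classical
  by_contra hcon
  push Not at hcon
  choose κ a b hbad using hcon
  obtain ⟨k, hk⟩ : ∃ k : ℕ, ∀ i, κ i ≤ k := ⟨∑ i, κ i, fun i =>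
    Finset.single_le_sum (f := κ) (fun _ _ => Nat.zero_le _) (mem_univ i)⟩
  obtain ⟨s, K, hs1, hCA⟩ := hC (1 / 1000) (4 * (84 * (k + 1))) (by norm_num) (by omega)
  obtain ⟨c, hc, H₀, X₀, hmain⟩ := str_two k hs1 hCA L s₀ Q hL hs hQ hQL hQQ
  obtain ⟨H, hH⟩ : ∃ H : ℕ, H = max H₀ 1 := ⟨_, rfl⟩
  have hev : ∀ᶠ X : ℕ in Filter.atTop, ∃ i, c * ((H : ℝ) / Real.log X) ^ K * (X / Real.log X) ≤
      ((Hit L s₀ (Q i) (strW (a i) (b i) k) X H).ncard : ℝ) := by
    have h1 : ∀ᶠ X : ℕ in Filter.atTop, (H : ℝ) ≤ Real.log (X : ℝ) :=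
      (Real.tendsto_log_atTop.comp tendsto_natCast_atTop_atTop).eventually_ge_atTop _
    filter_upwards [h1, Filter.eventually_ge_atTop X₀] with X h2 h3
    exact hmain a b X h3 H (by rw [hH]; exact le_max_left _ _) h2
  obtain ⟨i, hi⟩ : ∃ i, ∃ᶠ X : ℕ in Filter.atTop,
      c * ((H : ℝ) / Real.log X) ^ K * (X / Real.log X) ≤
      ((Hit L s₀ (Q i) (strW (a i) (b i) k) X H).ncard : ℝ) := by
    by_contra hcon2
    push Not at hcon2
    obtain ⟨X, h1, h2⟩ := (hev.and (Filter.eventually_all.2 hcon2)).exists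
    obtain ⟨i, h3⟩ := h1
    exact absurd h3 (not_le.2 (h2 i))
  refine hbad i (occ_of_hits (K := K) hc (H := H) (by rw [hH]; exact lt_max_of_lt_right one_pos) ?_)
  refine hi.mono fun X h1 => h1.trans ?_
  have h2 := hit_factor (L := L) (s := s₀) (Nat.succ_pos (2 * κ i + 1)) (k - κ i)
    (by have := hk i; omega) (strW (a i) (b i) (κ i)) (strW (a i) (b i) k) (fun j => by
      unfold strW
      have h3 := hk i
      by_cases h4 : (j : ℕ) ≤ κ i
      · rw [if_pos h4, if_pos (show k - κ i + (j : ℕ) ≤ k by omega)]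
      · rw [if_neg h4, if_neg (show ¬ k - κ i + (j : ℕ) ≤ k by omega)]) X H
  exact_mod_cast h2

/-- **strings with fixed tuples, all primes but one** -/
theorem occ_strings (hC : ∀ (e : ℝ) (m : ℕ), 0 < e → 1 ≤ m → ∃ s K : ℕ, 1 ≤ s ∧ CoreA e m s K)
    (L s₀ : ℕ) (hL : 0 < L) (hs : Nat.Coprime s₀ L) :
    ∃ E : Finset ℕ, E.card < 2 ∧ ∀ p : ℕ, p.Prime → Nat.Coprime p L → p ∉ E →
      ∀ (e k : ℕ) (a b : (ZMod (p ^ e))ˣ), Occ (2 * k + 1) L s₀ (p ^ e) (strW a b k) :=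
  primes_of_family (fun Q => ∀ (k : ℕ) (a b : (ZMod Q)ˣ), Occ (2 * k + 1) L s₀ Q (strW a b k)) L 2
    fun Q hQ hQL hQQ => occ_str_two hC L s₀ Q hL hs hQ hQL hQQ

end Pool.Agent.H72.PD
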