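import Pool.Agent.H21.WP.Str
import Pool.Agent.H72.PC.Tur

/-!
# [H72 PD PAIRS] MP_8923e7_nt, THEOREM W+: pairs of residue classes at every scale, for every modulus

Of any four reduced classes `c_0, .., c_3` modulo `Q` two, `c_i` and `c_j` with `i < j`, are such that consecutive primes
in the classes `c_i`, `c_j` at distance at most `H` have the right order of frequency up to `X`; hence, by the theorem of
Turan, at least a third of all pairs.
-/

namespace Pool.Agent.H72.PD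

open Finset Pool.Agent.H96.WP Pool.Agent.H21.WP

/-- two of four classes -/
theorem four_scale {s K : ℕ} (h : CoreA (1 / 1000) 4 s K)
    (L s₀ Q : ℕ) (hL : 0 < L) (hs : Nat.Coprime s₀ L) (hQ : 0 < Q) (hQL : Nat.Coprime Q L) :
    ∃ c : ℝ, 0 < c ∧ ∃ H₀ X₀ : ℕ, ∀ cls : Fin 4 → (ZMod Q)ˣ,
      ∀ X ≥ X₀, ∀ H ≥ H₀, (H : ℝ) ≤ Real.log X →
        ∃ i j : Fin 4, i < j ∧ c * (H / Real.log X) ^ K * (X / Real.log X) ≤
          ((Hit L s₀ Q (strW (cls i) (cls j) 0) X H).ncard : ℝ) := by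
  classical
  obtain ⟨c, hc, H₀, X₀, hmain⟩ := fam_core h (by norm_num) (by norm_num) L s₀ 1 (fun _ => Q) hL hs
    (fun _ => hQ) (fun _ => hQL) (fun i j hij => absurd (Subsingleton.elim i j) hij)
  refine ⟨c, hc, H₀, X₀, fun cls X hX H hH hHX => ?_⟩
  obtain ⟨A, hA1, hA0, hA3⟩ := hmain (fun _ x => cls x.divNat) X hX H hH hHX
  have h2 : 1 < (A.image (Fin.divNat : Fin (4 * s) → Fin 4)).card := by
    have h3 : (1 : ℝ) < ((A.image (Fin.divNat : Fin (4 * s) → Fin 4)).card : ℝ) := by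
      refine lt_of_lt_of_le ?_ hA1
      norm_num
    exact_mod_cast h3
  have hmono : ∀ x y : Fin (4 * s), x ≤ y → x.divNat ≤ y.divNat := by
    intro x y hxy
    show (x : ℕ) / s ≤ (y : ℕ) / s
    exact Nat.div_le_div_right hxy
  obtain ⟨i, hi, hne⟩ : ∃ (i : ℕ) (hi : i + 1 < A.card),
      (A.orderEmbOfFin rfl ⟨i, by omega⟩).divNat ≠ (A.orderEmbOfFin rfl ⟨i + 1, hi⟩).divNat := by
    by_contra hcon
    push Not at hcon
    have h3 : ∀ (i : ℕ) (hi : i < A.card), (A.orderEmbOfFin rfl ⟨i, hi⟩).divNat =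
        (A.orderEmbOfFin rfl ⟨0, hA0⟩).divNat := by
      intro i
      induction i with
      | zero => exact fun _ => rfl
      | succ i ih =>
        intro hi
        rw [← hcon i hi, ih (by omega)]
    have h4 : A.image (Fin.divNat : Fin (4 * s) → Fin 4) ⊆
        {(A.orderEmbOfFin rfl ⟨0, hA0⟩).divNat} := by
      intro y hy
      obtain ⟨x, hx, rfl⟩ := mem_image.1 hy
      have h5 : x ∈ Set.range (A.orderEmbOfFin rfl) := by
        rw [A.range_orderEmbOfFin rfl]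
        exact hx
      obtain ⟨z, rfl⟩ := h5
      rw [mem_singleton]
      exact h3 z.1 z.2
    have h5 := card_le_card h4
    rw [card_singleton] at h5
    omega
  refine ⟨_, _, lt_of_le_of_ne (hmono _ _ ((A.orderEmbOfFin rfl).monotone
    (show (⟨i, by omega⟩ : Fin A.card) ≤ ⟨i + 1, hi⟩ from Nat.le_succ i))) hne, (hA3 0).trans ?_⟩
  have := cut (L := L) (s := s₀) (k := 0) A (fun x : Fin (4 * s) => cls x.divNat)
    (cls (A.orderEmbOfFin rfl ⟨i, by omega⟩).divNat) (cls (A.orderEmbOfFin rfl ⟨i + 1, hi⟩).divNat)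
    (i + 1) (by omega) (by omega)
    (fun j h6 h7 => by
      have e : j = ⟨i, by omega⟩ := Fin.ext (by
        show (j : ℕ) = i
        omega)
      rw [e])
    (fun j h6 h7 => by
      have e : j = ⟨i + 1, hi⟩ := Fin.ext (by
        show (j : ℕ) = i + 1
        omega)
      rw [e]) X H
  exact_mod_cast this

/-- **a third of all pairs, for every modulus, at every scale** -/
theorem pairs_scale {s K : ℕ} (h : CoreA (1 / 1000) 4 s K)
    (L s₀ Q : ℕ) (hL : 0 < L) (hs : Nat.Coprime s₀ L) (hQ : 0 < Q) (hQL : Nat.Coprime Q L) :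
    ∃ c : ℝ, 0 < c ∧ ∃ H₀ X₀ : ℕ, ∀ X ≥ X₀, ∀ H ≥ H₀, (H : ℝ) ≤ Real.log X →
      Q.totient ^ 2 ≤ 3 * {p : (ZMod Q)ˣ × (ZMod Q)ˣ | c * (H / Real.log X) ^ K * (X / Real.log X) ≤
        ((Hit L s₀ Q (strW p.1 p.2 0) X H).ncard : ℝ)}.ncard := by
  classical
  have : NeZero Q := ⟨hQ.ne'⟩
  obtain ⟨c, hc, H₀, X₀, hmain⟩ := four_scale h L s₀ Q hL hs hQ hQL
  refine ⟨c, hc, H₀, X₀, fun X hX H hH hHX => ?_⟩
  obtain ⟨P, hP⟩ : ∃ P : (ZMod Q)ˣ → (ZMod Q)ˣ → Prop, ∀ a b, P a b ↔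
      c * (H / Real.log X) ^ K * (X / Real.log X) ≤ ((Hit L s₀ Q (strW a b 0) X H).ncard : ℝ) :=
    ⟨_, fun _ _ => Iff.rfl⟩
  have hUc : (univ : Finset (ZMod Q)ˣ).card = Q.totient := by
    rw [card_univ, ZMod.card_units_eq_totient]
  have h1 := Pool.Agent.H72.PC.turanD (fun a b => ¬ P a b) 2 Q.totient
    (univ : Finset (ZMod Q)ˣ) hUc (by
      rintro ⟨cl, -, hcc⟩
      obtain ⟨i, j, hij, h⟩ := hmain cl X hX H hH hHX
      exact hcc i j hij ((hP _ _).2 h))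
  have h2 : {p : (ZMod Q)ˣ × (ZMod Q)ˣ | c * (H / Real.log X) ^ K * (X / Real.log X) ≤
      ((Hit L s₀ Q (strW p.1 p.2 0) X H).ncard : ℝ)} =
      (((univ ×ˢ univ : Finset ((ZMod Q)ˣ × (ZMod Q)ˣ)).filter (fun p => P p.1 p.2) :
        Finset ((ZMod Q)ˣ × (ZMod Q)ˣ)) : Set ((ZMod Q)ˣ × (ZMod Q)ˣ)) := by
    ext p
    rw [mem_coe, mem_filter, Set.mem_ofPred_eq, hP]
    simp
  rw [h2, Set.ncard_coe_finset]
  have h4 : Pool.Agent.H72.PC.arcs (fun a b => ¬ P a b) (univ : Finset (ZMod Q)ˣ) univ =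
      (univ ×ˢ univ : Finset ((ZMod Q)ˣ × (ZMod Q)ˣ)).filter (fun p => ¬ P p.1 p.2) := by
    unfold Pool.Agent.H72.PC.arcs
    rfl
  have h5 : (Pool.Agent.H72.PC.arcs (fun a b => ¬ P a b) (univ : Finset (ZMod Q)ˣ) univ).card +
      ((univ ×ˢ univ : Finset ((ZMod Q)ˣ × (ZMod Q)ˣ)).filter (fun p => P p.1 p.2)).card =
      Q.totient ^ 2 := by
    rw [h4, add_comm, Finset.card_filter_add_card_filter_not, card_product, hUc, sq]
  omega

end Pool.Agent.H72.PD
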